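import Pool.Agent.Work.MP_cfede9_lc.Fin3b
import Pool.Agent.Work.MP_cfede9_lc.San1
import Pool.Agent.Work.MP_cfede9_lc.San3

set_option autoImplicit false

/-!
# MP_cfede9_lc: every definition of truth defines `UTB^-` (full answer to Q1)

Notions of the statement: `Pool.Agent.Work.MP_cfede9_lc.Lang`, `Stmt`, `Cod`. The concrete coding is injective
(`gnum_injective`, San1) and is a `Coding` (`stdCoding`, San3).
-/

namespace Pool.Agent.Results.MP_cfede9_lc.AllDefineUTB

open FirstOrder TruthCF

/-- Let `T` be a theory in the language of arithmetic with finitely many extra relation symbols which contains EA, is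
finitely axiomatizable and has a formula `Θ` satisfying the disquotation sentences for all arithmetical sentences.
Then `T` defines `UTB^-`. This holds for every Goedel coding which EA can translate into the concrete coding. -/
theorem result (C : Coding) (L' : FirstOrder.Language.{0, 0}) [L'.IsRelational]
    [Finite (Σ n : ℕ, L'.Relations n)] (T : (LA.sum L').Theory) (h : IsDefTruthC C T) :
    Defines T (UTBmC C) :=
  defines_utbC C T h

end Pool.Agent.Results.MP_cfede9_lc.AllDefineUTB
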